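import Pool.Agent.Lib.MP_1a91b9_ntK.R.Chi3b
import Pool.Agent.Lib.MP_1a91b9_ntK.R.SqF3
import Pool.Agent.Lib.MP_1a91b9_ntK.R.Density3
import Pool.Agent.Lib.MP_1a91b9_ntK.D.L3

/-!
# MP_1a91b9_nt (cubic twists), part R: transfer of the density to all cube-free elements

Every cube-free element is `± w^k s3^j y` with `k, j ∈ {0, 1, 2}` and a cube-free `y ≡ 1` modulo `3`. The
families are given by the sign, `k`, `j` and the class of `y` modulo `9`.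
-/

set_option autoImplicit false

namespace Pool.Agent.Lib.MP_1a91b9_ntK2

open NumberField Finset Pool.Agent.Lib.MP_1a91b9_ntT Pool.Agent.Lib.MP_1a91b9_ntK
open Pool.Agent.Lib.MP_1a91b9_ntH (s3 wO wO_quad PS nm Sx mem_Sx Nz Nz_mul Nz_one Nz_s3 Nz_eq_zero
  isUnit_iff_Nz isEis prime_s3 abs_norm_le discE mem_disc)

noncomputable section

namespace D9

/-! ### The number of the squarefree elements in a class -/

theorem md3 : Prm.Md prm3 3 where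
  ne := by norm_num
  nu := by
    intro h
    have h1 : IsUnit (s3 : 𝓞 K) := by
      apply isUnit_of_dvd_unit _ h
      have h2 := Pool.Agent.Lib.MP_1a91b9_ntH.s3_sq
      exact ⟨-s3, by linear_combination h2⟩
    exact prime_s3.not_isUnit h1
  iff _ := Iff.rfl

/-- The squarefree elements in a class modulo `9`. -/
def SC (α β : ZMod 3) (X : ℕ) : Finset (Finset P3) :=
  (Sx P3 X).filter fun S => ∑ q ∈ S, d3b.a q = α ∧ ∑ q ∈ S, d3b.b q = β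

theorem sum_class (α β : ZMod 3) (X : ℕ) :
    (9 : ℂ) * ((SC α β X).card : ℂ) = ∑ c : ZMod 3, ∑ d : ZMod 3, e3 (-(c * α + d * β)) *
      ∑ S ∈ Sx P3 X, ∏ q ∈ S, e3 (d3b.exb ∅ (fun _ => 0) c d q) := by
  have h1 : ∀ (c d : ZMod 3) (S : Finset P3), e3 (-(c * α + d * β)) *
      ∏ q ∈ S, e3 (d3b.exb ∅ (fun _ => 0) c d q) =
      e3 (c * (∑ q ∈ S, d3b.a q - α)) * e3 (d * (∑ q ∈ S, d3b.b q - β)) := by
    intro c d S
    rw [← e3_sum, ← e3_add, ← e3_add]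
    congr 1
    unfold Dat3b.exb
    simp only [sum_empty, sum_add_distrib, ← mul_sum]
    ring
  simp only [mul_sum, h1]
  have h2 : ∀ S : Finset P3, ∑ c : ZMod 3, ∑ d : ZMod 3,
      e3 (c * (∑ q ∈ S, d3b.a q - α)) * e3 (d * (∑ q ∈ S, d3b.b q - β)) =
      if ∑ q ∈ S, d3b.a q = α ∧ ∑ q ∈ S, d3b.b q = β then 9 else 0 := by
    intro S
    simp only [← mul_sum]
    rw [← sum_mul, Da.sum_t, Da.sum_t]
    simp only [sub_eq_zero]
    by_cases ha : ∑ q ∈ S, d3b.a q = α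
    · by_cases hb : ∑ q ∈ S, d3b.b q = β
      · rw [if_pos ha, if_pos hb, if_pos ⟨ha, hb⟩]
        norm_num
      · rw [if_neg hb, mul_zero, if_neg (fun h => hb h.2)]
    · rw [if_neg ha, zero_mul, if_neg (fun h => ha h.1)]
  have h3 : ∑ c : ZMod 3, ∑ d : ZMod 3, ∑ S ∈ Sx P3 X,
      e3 (c * (∑ q ∈ S, d3b.a q - α)) * e3 (d * (∑ q ∈ S, d3b.b q - β)) =
      ∑ S ∈ Sx P3 X, ∑ c : ZMod 3, ∑ d : ZMod 3,
        e3 (c * (∑ q ∈ S, d3b.a q - α)) * e3 (d * (∑ q ∈ S, d3b.b q - β)) := by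
    rw [sum_comm]
    have : ∀ c : ZMod 3, ∑ d : ZMod 3, ∑ S ∈ Sx P3 X,
      e3 (c * (∑ q ∈ S, d3b.a q - α)) * e3 (d * (∑ q ∈ S, d3b.b q - β)) =
      ∑ S ∈ Sx P3 X, ∑ d : ZMod 3,
        e3 (c * (∑ q ∈ S, d3b.a q - α)) * e3 (d * (∑ q ∈ S, d3b.b q - β)) := fun c => sum_comm
    rw [sum_comm]
    rw [sum_congr rfl fun c _ => this c, sum_comm]
  rw [h3, sum_congr rfl fun S _ => h2 S, ← sum_filter, sum_const, nsmul_eq_mul, mul_comm]
  rfl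

theorem class_card_ge (α β : ZMod 3) : ∃ c : ℝ, 0 < c ∧ ∃ X₀ : ℕ, ∀ X : ℕ, X₀ ≤ X →
    c * X ≤ ((SC α β X).card : ℝ) := by
  classical
  obtain ⟨c, hc, X₁, h1⟩ := Prm.card_ge md3
  have hε : 0 < c / 16 := by positivity
  have h2 : ∀ p : ZMod 3 × ZMod 3, ∃ X₀ : ℕ, ∀ X : ℕ, X₀ ≤ X → p ≠ 0 →
      ‖∑ S ∈ Sx P3 X, ∏ q ∈ S, e3 (d3b.exb ∅ (fun _ => 0) p.1 p.2 q)‖ ≤ c / 16 * X := by
    intro p
    by_cases hp : p = 0
    · exact ⟨0, fun X _ h => absurd hp h⟩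
    · have hp' : p.1 ≠ 0 ∨ p.2 ≠ 0 := by
        by_contra h3
        push Not at h3
        exact hp (Prod.ext h3.1 h3.2)
      obtain ⟨X₀, h3⟩ := d3b_h3 ∅ ∅ (fun _ => 0) p.1 p.2 (empty_subset _)
        (fun q hq => absurd hq (notMem_empty q)) (Or.inr hp') (c / 16) hε
      refine ⟨X₀, fun X hX _ => ?_⟩
      have h4 := h3 X hX
      rw [filter_true_of_mem (fun S _ => disjoint_empty_right S)] at h4
      exact h4
  choose X₂ h2 using h2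
  refine ⟨c / 18, by positivity, X₁ + ∑ p, X₂ p, fun X hX => ?_⟩
  have hX2 : ∀ p, X₂ p ≤ X := fun p =>
    (single_le_sum (fun _ _ => Nat.zero_le _) (mem_univ p)).trans ((Nat.le_add_left _ _).trans hX)
  have e := sum_class α β X
  rw [← sum_product'] at e
  have hz : ((0 : ZMod 3), (0 : ZMod 3)) ∈ (univ : Finset (ZMod 3)) ×ˢ (univ : Finset (ZMod 3)) := by
    simp
  rw [← add_sum_erase _ _ hz] at e
  have e0 : ∑ S ∈ Sx P3 X, ∏ q ∈ S, e3 (d3b.exb ∅ (fun _ => 0) 0 0 q) = ((Sx P3 X).card : ℂ) := by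
    have : ∀ q : P3, e3 (d3b.exb ∅ (fun _ => 0) 0 0 q) = 1 := by
      intro q
      unfold Dat3b.exb
      rw [zero_mul, zero_mul, sum_empty, add_zero, add_zero, e3_zero]
    simp only [this, prod_const_one, sum_const, nsmul_eq_mul, mul_one]
  dsimp only at e
  rw [e0, zero_mul, zero_mul, add_zero, neg_zero, e3_zero, one_mul] at e
  have hrest : ‖∑ p ∈ ((univ : Finset (ZMod 3)) ×ˢ (univ : Finset (ZMod 3))).erase (0, 0),
      e3 (-(p.1 * α + p.2 * β)) *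
        ∑ S ∈ Sx P3 X, ∏ q ∈ S, e3 (d3b.exb ∅ (fun _ => 0) p.1 p.2 q)‖ ≤ 8 * (c / 16 * X) := by
    refine (norm_sum_le _ _).trans ?_
    have h3 : ∀ p ∈ ((univ : Finset (ZMod 3)) ×ˢ (univ : Finset (ZMod 3))).erase (0, 0),
        ‖e3 (-(p.1 * α + p.2 * β)) *
          ∑ S ∈ Sx P3 X, ∏ q ∈ S, e3 (d3b.exb ∅ (fun _ => 0) p.1 p.2 q)‖ ≤ c / 16 * X := by
      intro p hp
      rw [norm_mul, norm_e3, one_mul]
      exact h2 p X (hX2 p) (mem_erase.1 hp).1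
    refine (sum_le_sum h3).trans (le_of_eq ?_)
    rw [sum_const, nsmul_eq_mul]
    congr 1
  have h4 := h1 X (by omega)
  have h5 : (9 : ℝ) * ((SC α β X).card : ℝ) ≥ ((Sx P3 X).card : ℝ) - 8 * (c / 16 * X) := by
    have h6 : ‖((Sx P3 X).card : ℂ)‖ ≤ ‖(9 : ℂ) * ((SC α β X).card : ℂ)‖ + 8 * (c / 16 * X) := by
      have h7 : ((Sx P3 X).card : ℂ) = (9 : ℂ) * ((SC α β X).card : ℂ) -
          ∑ p ∈ ((univ : Finset (ZMod 3)) ×ˢ (univ : Finset (ZMod 3))).erase (0, 0),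
      e3 (-(p.1 * α + p.2 * β)) *
        ∑ S ∈ Sx P3 X, ∏ q ∈ S, e3 (d3b.exb ∅ (fun _ => 0) p.1 p.2 q) := by
        rw [e]
        ring
      rw [h7]
      refine (norm_sub_le _ _).trans ?_
      linarith
    rw [norm_mul, Complex.norm_natCast, Complex.norm_natCast] at h6
    have h8 : ‖(9 : ℂ)‖ = 9 := by norm_num
    rw [h8] at h6
    linarith
  have h6 : (0 : ℝ) ≤ X := Nat.cast_nonneg _
  nlinarith

/-! ### The families -/

/-- The indices of the families: the sign, the power of `w`, the power of `s3`, the classes. -/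
abbrev Idx := Bool × Fin 3 × Fin 3 × ZMod 3 × ZMod 3

/-- The units. -/
def un (b : Bool) (k : Fin 3) : 𝓞 K := (if b then -1 else 1) * wO ^ (k : ℕ)

/-- The elements of a family. -/
def ph (i : Idx) (y : 𝓞 K) : 𝓞 K := un i.1 i.2.1 * (s3 ^ (i.2.2.1 : ℕ) * y)

/-- The cube-free elements congruent to `1` modulo `3` in a class modulo `9`. -/
def Cy (i : Idx) (y : 𝓞 K) : Prop := CF y ∧ In3 y ∧ cl3 y = i.2.2.2.1 ∧ cn3 y = i.2.2.2.2

theorem wO_cube : wO ^ 3 = 1 := by linear_combination (wO - 1) * wO_quad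

theorem isUnit_wO : IsUnit wO := by
  apply IsUnit.of_mul_eq_one (wO ^ 2)
  linear_combination wO_cube

theorem isUnit_un (b : Bool) (k : Fin 3) : IsUnit (un b k) := by
  unfold un
  refine IsUnit.mul ?_ (isUnit_wO.pow _)
  split_ifs
  · exact isUnit_one.neg
  · exact isUnit_one

theorem exists_un {u : 𝓞 K} (hu : IsUnit u) : ∃ (b : Bool) (k : Fin 3), un b k = u := by
  obtain ⟨p, rfl⟩ := Pool.Agent.Lib.MP_1a91b9_ntH.exists_coords u
  have h1 := (isEis.isUnit_iff p.1 p.2).1 hu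
  unfold Pool.Agent.Lib.MP_1a91b9_ntH.R.nm at h1
  have h3 : (2 * p.1 - p.2) ^ 2 + 3 * p.2 ^ 2 = 4 := by linear_combination 4 * h1
  have h3' : (2 * p.2 - p.1) ^ 2 + 3 * p.1 ^ 2 = 4 := by linear_combination 4 * h1
  have h4 : p.2 ^ 2 ≤ 1 := by nlinarith [sq_nonneg (2 * p.1 - p.2)]
  have h5 : -1 ≤ p.2 ∧ p.2 ≤ 1 := by constructor <;> nlinarith
  have h4' : p.1 ^ 2 ≤ 1 := by nlinarith [sq_nonneg (2 * p.2 - p.1)]
  have h5' : -1 ≤ p.1 ∧ p.1 ≤ 1 := by constructor <;> nlinarith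
  obtain ⟨a, b⟩ := p
  dsimp only at *
  have ha : a = -1 ∨ a = 0 ∨ a = 1 := by omega
  have hb : b = -1 ∨ b = 0 ∨ b = 1 := by omega
  have hw2 : wO ^ 2 = -1 - wO := by linear_combination wO_quad
  rcases ha with rfl | rfl | rfl <;> rcases hb with rfl | rfl | rfl <;>
    first
    | (exfalso; norm_num at h1; done)
    | (refine ⟨false, 0, ?_⟩; unfold un; push_cast; simp; done)
    | (refine ⟨true, 0, ?_⟩; unfold un; push_cast; simp; done)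
    | (refine ⟨false, 1, ?_⟩; unfold un; push_cast; simp; done)
    | (refine ⟨true, 1, ?_⟩; unfold un; push_cast; simp; done)
    | (refine ⟨false, 2, ?_⟩; unfold un; push_cast; simp [hw2]; ring; done)
    | (refine ⟨true, 2, ?_⟩; unfold un; push_cast; simp [hw2]; ring)

/-- The coordinates of the units. -/
def cu : Bool → Fin 3 → ℤ × ℤ
  | false, 0 => (1, 0)
  | false, 1 => (0, 1)
  | false, 2 => (-1, -1)
  | true, 0 => (-1, 0)
  | true, 1 => (0, -1)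
  | true, 2 => (1, 1)

theorem un_eq (b : Bool) (k : Fin 3) : un b k = ((cu b k).1 : 𝓞 K) + ((cu b k).2 : 𝓞 K) * wO := by
  have hw2 : wO ^ 2 = -1 - wO := by linear_combination wO_quad
  cases b <;> fin_cases k
  · simp [un, cu]
  · simp [un, cu]
  · simp [un, cu, hw2]
    ring
  · simp [un, cu]
  · simp [un, cu]
  · simp [un, cu, hw2]
    ring

theorem un_inj {b b' : Bool} {k k' : Fin 3} (h : (3 : 𝓞 K) ∣ un b k - un b' k') :
    b = b' ∧ k = k' := by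
  obtain ⟨t, ht⟩ := h
  obtain ⟨q, rfl⟩ := Pool.Agent.Lib.MP_1a91b9_ntH.exists_coords t
  rw [un_eq, un_eq] at ht
  have h2 : (((cu b k).1 - (cu b' k').1 : ℤ) : 𝓞 K) + (((cu b k).2 - (cu b' k').2 : ℤ) : 𝓞 K) * wO =
      ((3 * q.1 : ℤ) : 𝓞 K) + ((3 * q.2 : ℤ) : 𝓞 K) * wO := by
    push_cast
    linear_combination ht
  obtain ⟨h3, h4⟩ := isEis.eq_iff.1 h2
  have key : ∀ (b b' : Bool) (k k' : Fin 3), ((cu b k).1 - (cu b' k').1) % 3 = 0 →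
      ((cu b k).2 - (cu b' k').2) % 3 = 0 → b = b' ∧ k = k' := by decide
  exact key b b' k k' (by omega) (by omega)

theorem not_s3_dvd_un (b : Bool) (k : Fin 3) {y : 𝓞 K} (hy : In3 y) : ¬ s3 ∣ un b k * y := by
  rw [(isUnit_un b k).dvd_mul_left]
  exact hy.not_s3

theorem ph_eq (i : Idx) (y : 𝓞 K) : ph i y = s3 ^ (i.2.2.1 : ℕ) * (un i.1 i.2.1 * y) := by
  unfold ph
  ring

theorem s3_pow_dvd {j j' : ℕ} {x x' : 𝓞 K} (hx' : ¬ s3 ∣ x') (h : s3 ^ j * x = s3 ^ j' * x') :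
    j ≤ j' := by
  by_contra h1
  push Not at h1
  obtain ⟨m, rfl⟩ := Nat.exists_eq_add_of_lt h1
  apply hx'
  have h2 : s3 ^ j' * (s3 ^ (m + 1) * x) = s3 ^ j' * x' := by
    rw [← h]
    ring
  have h3 := mul_left_cancel₀ (pow_ne_zero j' prime_s3.ne_zero) h2
  exact ⟨s3 ^ m * x, by rw [← h3]; ring⟩

theorem ph_inj {i i' : Idx} {y y' : 𝓞 K} (hy : Cy i y) (hy' : Cy i' y') (h : ph i y = ph i' y') :
    i = i' ∧ y = y' := by
  obtain ⟨b, k, j, α, β⟩ := i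
  obtain ⟨b', k', j', α', β'⟩ := i'
  obtain ⟨-, h3, hα, hβ⟩ := hy
  obtain ⟨-, h3', hα', hβ'⟩ := hy'
  rw [ph_eq, ph_eq] at h
  dsimp only at h hα hβ hα' hβ'
  have hj : j = j' := by
    apply Fin.ext
    exact le_antisymm (s3_pow_dvd (not_s3_dvd_un b' k' h3') h)
      (s3_pow_dvd (not_s3_dvd_un b k h3) h.symm)
  subst hj
  have h4 := mul_left_cancel₀ (pow_ne_zero _ prime_s3.ne_zero) h
  have h5 : (3 : 𝓞 K) ∣ un b k - un b' k' := by
    obtain ⟨s, hs⟩ := h3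
    obtain ⟨t, ht⟩ := h3'
    exact ⟨un b' k' * t - un b k * s, by linear_combination h4 - un b k * hs + un b' k' * ht⟩
  obtain ⟨rfl, rfl⟩ := un_inj h5
  have h6 : y = y' := (isUnit_un b k).mul_left_cancel h4
  refine ⟨?_, h6⟩
  rw [← hα, ← hα', ← hβ, ← hβ', h6]

/-- The cube-free elements divisible by `s3`. -/
theorem cf_s3 {j : ℕ} (hj : j ≤ 2) {y : 𝓞 K} (hy : ¬ s3 ∣ y) : CF (s3 ^ j * y) ↔ CF y := by
  constructor
  · intro h
    exact h.of_dvd (dvd_mul_left _ _)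
  · intro h z hz
    by_cases h1 : s3 ∣ z
    · exfalso
      obtain ⟨t, rfl⟩ := h1
      apply hy
      obtain ⟨m, hm⟩ : ∃ m, 3 = j + (m + 1) := ⟨2 - j, by omega⟩
      obtain ⟨r, hr⟩ := hz
      have h2 : s3 ^ j * y = s3 ^ j * (s3 ^ (m + 1) * t ^ 3 * r) := by
        rw [hr, mul_pow]
        conv_lhs => rw [show (s3 : 𝓞 K) ^ 3 = s3 ^ (j + (m + 1)) by rw [← hm]]
        ring
      have h3 := mul_left_cancel₀ (pow_ne_zero j prime_s3.ne_zero) h2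
      exact ⟨s3 ^ m * t ^ 3 * r, by rw [h3]; ring⟩
    · apply h
      have h2 : IsCoprime (s3 : 𝓞 K) z := (prime_s3.irreducible.coprime_iff_not_dvd).2 h1
      have h3 : IsCoprime (z ^ 3) (s3 ^ j) := (h2.symm.pow_left).pow_right
      exact h3.dvd_of_dvd_mul_left hz

theorem ph_cf {i : Idx} {y : 𝓞 K} (hy : Cy i y) : CF (ph i y) := by
  unfold ph
  rw [CF.mul_unit (isUnit_un _ _), cf_s3 (by omega) hy.2.1.not_s3]
  exact hy.1

theorem exists_ph {x : 𝓞 K} (hx : CF x) : ∃ (i : Idx) (y : 𝓞 K), Cy i y ∧ ph i y = x := by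
  -- the power of `s3`
  obtain ⟨j, z, hz, hxz⟩ : ∃ (j : Fin 3) (z : 𝓞 K), ¬ s3 ∣ z ∧ x = s3 ^ (j : ℕ) * z := by
    by_cases h0 : s3 ∣ x
    · obtain ⟨x1, h1⟩ := h0
      by_cases h2 : s3 ∣ x1
      · obtain ⟨x2, h2'⟩ := h2
        refine ⟨2, x2, ?_, ?_⟩
        · rintro ⟨x3, h3⟩
          apply prime_s3.not_isUnit
          apply hx
          exact ⟨x3, by rw [h1, h2', h3]; ring⟩
        · rw [h1, h2']
          change _ = s3 ^ 2 * x2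
          ring
      · exact ⟨1, x1, h2, by rw [h1]; change _ = s3 ^ 1 * x1; ring⟩
    · exact ⟨0, x, h0, by change _ = s3 ^ 0 * x; ring⟩
  obtain ⟨u, hu, hu3⟩ := exists_unit3 hz
  obtain ⟨v, hv⟩ := hu.exists_left_inv
  have hvu : IsUnit v := IsUnit.of_mul_eq_one u hv
  obtain ⟨b, k, hbk⟩ := exists_un hvu
  refine ⟨(b, k, j, cl3 (u * z), cn3 (u * z)), u * z, ⟨?_, hu3, rfl, rfl⟩, ?_⟩
  · rw [CF.mul_unit hu]
    exact hx.of_dvd ⟨s3 ^ (j : ℕ), by rw [hxz]; ring⟩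
  · unfold ph
    dsimp only
    rw [hbk, hxz]
    linear_combination (s3 ^ (j : ℕ) * z) * hv

theorem Nz_ph (i : Idx) (y : 𝓞 K) : Nz (ph i y) = 3 ^ (i.2.2.1 : ℕ) * Nz y := by
  unfold ph
  rw [Nz_mul, isUnit_iff_Nz.1 (isUnit_un _ _), one_mul, Nz_mul]
  congr 1
  generalize (i.2.2.1 : ℕ) = n
  induction n with
  | zero => rw [pow_zero, pow_zero, Nz_one]
  | succ n ih => rw [pow_succ, pow_succ, Nz_mul, ih, Nz_s3]

/-- The bound for the norm. -/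
def Y (i : Idx) (X : ℝ) : ℝ := X / 3 ^ (i.2.2.1 : ℕ)

theorem Nz_ph_le (i : Idx) (y : 𝓞 K) (X : ℝ) : (Nz (ph i y) : ℝ) ≤ X ↔ (Nz y : ℝ) ≤ Y i X := by
  rw [Nz_ph, Y, le_div_iff₀ (by positivity)]
  push_cast
  rw [mul_comm]

theorem tendsto_Y (i : Idx) : Filter.Tendsto (Y i) Filter.atTop Filter.atTop := by
  unfold Y
  exact Filter.tendsto_id.atTop_div_const (by positivity)

theorem finite_le (X : ℝ) : Finite {x : 𝓞 K // (Nz x : ℝ) ≤ X} := by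
  refine Set.Finite.to_subtype (s := {x : 𝓞 K | (Nz x : ℝ) ≤ X}) ?_
  refine (discE (𝓞 K) ⌊X⌋₊).finite_toSet.subset ?_
  intro x hx
  rw [mem_coe, mem_disc]
  exact Nat.le_floor hx

/-- The number of the cube-free elements with a property is the sum over the families. -/
theorem card_all (X : ℝ) (P : 𝓞 K → Prop) :
    Nat.card {x : 𝓞 K // CF x ∧ (Nz x : ℝ) ≤ X ∧ P x} =
      ∑ i : Idx, Nat.card {y : 𝓞 K // Cy i y ∧ (Nz y : ℝ) ≤ Y i X ∧ P (ph i y)} := by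
  have hfin : ∀ i : Idx, Finite {y : 𝓞 K // Cy i y ∧ (Nz y : ℝ) ≤ Y i X ∧ P (ph i y)} := by
    intro i
    have := finite_le (Y i X)
    exact Finite.of_injective (β := {x : 𝓞 K // (Nz x : ℝ) ≤ Y i X})
      (fun x => ⟨x.1, x.2.2.1⟩) (fun a b h => Subtype.ext (Subtype.mk.inj h))
  rw [← Nat.card_sigma]
  symm
  refine Nat.card_congr (Equiv.ofBijective
    (fun s => ⟨ph s.1 s.2.1, ph_cf s.2.2.1, (Nz_ph_le _ _ _).2 s.2.2.2.1, s.2.2.2.2⟩) ⟨?_, ?_⟩)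
  · rintro ⟨i, x, hx, hx2⟩ ⟨i', x', hx', hx2'⟩ h
    have h1 : ph i x = ph i' x' := congrArg Subtype.val h
    obtain ⟨rfl, rfl⟩ := ph_inj hx hx' h1
    rfl
  · rintro ⟨δ, h1, h2, h3⟩
    obtain ⟨i, x, hx, rfl⟩ := exists_ph h1
    exact ⟨⟨i, x, hx, (Nz_ph_le _ _ _).1 h2, h3⟩, rfl⟩

theorem ph_congr (i : Idx) {y y' : 𝓞 K} (hy : In3 y) (hy' : In3 y') (h1 : cl3 y = cl3 y')
    (h2 : cn3 y = cn3 y') : (9 : 𝓞 K) ∣ ph i y - ph i y' := by
  have h3 := nine_dvd_of_cls hy hy' h1 h2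
  unfold ph
  rw [← mul_sub, ← mul_sub]
  exact Dvd.dvd.mul_left (Dvd.dvd.mul_left h3 _) _

theorem cl3_pp (S T : Finset P3) :
    cl3 (DD3 S * DD3 T ^ 2) = ∑ q ∈ S, d3.a q - ∑ q ∈ T, d3.a q := by
  have h1 := DD3_in3 T
  rw [pow_two, cl3_mul (DD3_in3 S) (h1.mul h1), cl3_mul h1 h1, cl3_DD3, cl3_DD3]
  have key : ∀ x y : ZMod 3, x + (y + y) = x - y := by decide
  exact key _ _

theorem cn3_pp (S T : Finset P3) :
    cn3 (DD3 S * DD3 T ^ 2) = ∑ q ∈ S, cq q s3 - ∑ q ∈ T, cq q s3 := by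
  have h1 := DD3_in3 T
  rw [pow_two, cn3_mul (DD3_in3 S) (h1.mul h1), cn3_mul h1 h1, cn3_DD3, cn3_DD3]
  have key : ∀ x y : ZMod 3, x + (y + y) = x - y := by decide
  exact key _ _

/-- The class condition. -/
def Fc (i : Idx) (y : 𝓞 K) : Prop := In3 y ∧ cl3 y = i.2.2.2.1 ∧ cn3 y = i.2.2.2.2

theorem Fc_pp (i : Idx) (S T : Finset P3) : Fc i (DD3 S * DD3 T ^ 2) ↔
    cl3 (DD3 S * DD3 T ^ 2) = i.2.2.2.1 ∧ cn3 (DD3 S * DD3 T ^ 2) = i.2.2.2.2 := by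
  have h : In3 (DD3 S * DD3 T ^ 2) := by
    rw [pow_two]
    exact (DD3_in3 S).mul ((DD3_in3 T).mul (DD3_in3 T))
  exact and_iff_right h

open Classical in
/-- The density in one family. -/
theorem family (i : Idx) (κ κ' : ℝ) (hκ0 : 0 ≤ κ) (hκ : κ' < κ)
    (Good : Finset P3 → Finset P3 → Prop)
    (h : ∀ T : Finset P3, ∀ ε : ℝ, 0 < ε → ∃ X₀ : ℕ, ∀ X : ℕ, X₀ ≤ X →
      κ * (((Sx P3 X).filter fun S => Disjoint S T ∧ cl3 (DD3 S * DD3 T ^ 2) = i.2.2.2.1 ∧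
        cn3 (DD3 S * DD3 T ^ 2) = i.2.2.2.2).card : ℝ) - ε * X ≤
      (((Sx P3 X).filter fun S => Disjoint S T ∧ (cl3 (DD3 S * DD3 T ^ 2) = i.2.2.2.1 ∧
        cn3 (DD3 S * DD3 T ^ 2) = i.2.2.2.2) ∧ Good S T).card : ℝ))
    (Pr : 𝓞 K → Prop) (hPr : ∀ S T : Finset P3, Disjoint S T →
      cl3 (DD3 S * DD3 T ^ 2) = i.2.2.2.1 → cn3 (DD3 S * DD3 T ^ 2) = i.2.2.2.2 → Good S T →
      Pr (ph i (DD3 S * DD3 T ^ 2))) :
    ∀ᶠ X : ℝ in Filter.atTop,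
      0 < Nat.card {y : 𝓞 K // Cy i y ∧ (Nz y : ℝ) ≤ X} ∧
      κ' * (Nat.card {y : 𝓞 K // Cy i y ∧ (Nz y : ℝ) ≤ X} : ℝ) ≤
        (Nat.card {y : 𝓞 K // Cy i y ∧ (Nz y : ℝ) ≤ X ∧ Pr (ph i y)} : ℝ) := by
  have hpp : ∀ S T : Finset P3, (1 : 𝓞 K) * prm3.pp S T = DD3 S * DD3 T ^ 2 := fun S T => one_mul _
  have hpd : ∀ S : Finset P3, (1 : 𝓞 K) * prm3.pd S = DD3 S := fun S => one_mul _
  have key := prm3.cf_density isUnit_one (Fc i) (fun x hx => ⟨x, hx.1, (one_mul x).symm⟩)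
    (C := 25) prm3.card_le κ κ' hκ0 hκ Good (by
      intro T ε hε
      obtain ⟨X₀, hX₀⟩ := h T ε hε
      refine ⟨X₀, fun X hX => ?_⟩
      have h1 := hX₀ X hX
      simp only [hpp, Fc_pp]
      exact h1) (by
      obtain ⟨c, hc, X₀, hX₀⟩ := class_card_ge i.2.2.2.1 i.2.2.2.2
      refine ⟨c, hc, X₀, fun X hX => (hX₀ X hX).trans ?_⟩
      refine Nat.cast_le.2 (card_le_card ?_)
      intro S hS
      rw [SC, mem_filter] at hS
      rw [mem_filter, hpd]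
      refine ⟨hS.1, DD3_in3 S, ?_, ?_⟩
      · rw [cl3_DD3]
        exact hS.2.1
      · rw [cn3_DD3]
        exact hS.2.2) (fun x => Pr (ph i x)) (by
      intro S T hST hF hG
      rw [hpp] at hF ⊢
      have h1 := (Fc_pp i S T).1 hF
      exact hPr S T hST h1.1 h1.2 hG)
  filter_upwards [key] with X hX
  simp only [abs_norm_le] at hX
  have e1 : Nat.card {x : 𝓞 K // CF x ∧ Fc i x ∧ (Nz x : ℝ) ≤ X} =
      Nat.card {y : 𝓞 K // Cy i y ∧ (Nz y : ℝ) ≤ X} :=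
    Nat.card_congr (Equiv.subtypeEquivRight fun x => by
      unfold Cy Fc
      tauto)
  have e2 : Nat.card {x : 𝓞 K // CF x ∧ Fc i x ∧ (Nz x : ℝ) ≤ X ∧ Pr (ph i x)} =
      Nat.card {y : 𝓞 K // Cy i y ∧ (Nz y : ℝ) ≤ X ∧ Pr (ph i y)} :=
    Nat.card_congr (Equiv.subtypeEquivRight fun x => by
      unfold Cy Fc
      tauto)
  rw [e1, e2] at hX
  exact ⟨hX.2, hX.1⟩

end D9

open D9

open Classical in
/-- **The density among the cube-free elements with a condition `R` which only depends on the sign, the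
powers of `w` and `s3` and the class modulo `9` of the remaining factor.** -/
theorem density_all9 (R : 𝓞 K → Prop)
    (hR : ∀ (i : Idx) (y y' : 𝓞 K), In3 y → In3 y' → (9 : 𝓞 K) ∣ y - y' → (R (ph i y) ↔ R (ph i y')))
    (hne : ∃ x, CF x ∧ R x) (κ κ' : ℝ) (hκ0 : 0 ≤ κ) (hκ : κ' < κ)
    (Good : Idx → Finset P3 → Finset P3 → Prop)
    (h : ∀ i : Idx, (∃ y, Cy i y ∧ R (ph i y)) → ∀ T : Finset P3, ∀ ε : ℝ, 0 < ε →
      ∃ X₀ : ℕ, ∀ X : ℕ, X₀ ≤ X →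
      κ * (((Sx P3 X).filter fun S => Disjoint S T ∧ cl3 (DD3 S * DD3 T ^ 2) = i.2.2.2.1 ∧
        cn3 (DD3 S * DD3 T ^ 2) = i.2.2.2.2).card : ℝ) - ε * X ≤
      (((Sx P3 X).filter fun S => Disjoint S T ∧ (cl3 (DD3 S * DD3 T ^ 2) = i.2.2.2.1 ∧
        cn3 (DD3 S * DD3 T ^ 2) = i.2.2.2.2) ∧ Good i S T).card : ℝ))
    (Pr : 𝓞 K → Prop) (hPr : ∀ (i : Idx) (S T : Finset P3), Disjoint S T →
      cl3 (DD3 S * DD3 T ^ 2) = i.2.2.2.1 → cn3 (DD3 S * DD3 T ^ 2) = i.2.2.2.2 →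
      R (ph i (DD3 S * DD3 T ^ 2)) → Good i S T → Pr (ph i (DD3 S * DD3 T ^ 2))) :
    ∀ᶠ X : ℝ in Filter.atTop,
      κ' ≤ (Nat.card {x : 𝓞 K // CF x ∧ R x ∧ |Algebra.norm ℤ x| ≤ X ∧ Pr x} : ℝ) /
        (Nat.card {x : 𝓞 K // CF x ∧ R x ∧ |Algebra.norm ℤ x| ≤ X} : ℝ) := by
  set J : Finset Idx := univ.filter fun i => ∃ y, Cy i y ∧ R (ph i y) with hJ
  have hRi : ∀ (i : Idx) (y : 𝓞 K), Cy i y → (R (ph i y) ↔ i ∈ J) := by
    intro i y hy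
    rw [hJ, mem_filter, and_iff_right (mem_univ _)]
    constructor
    · intro h1
      exact ⟨y, hy, h1⟩
    · rintro ⟨y', hy', h1⟩
      exact (hR i y' y hy'.2.1 hy.2.1 (nine_dvd_of_cls hy'.2.1 hy.2.1
        (by rw [hy'.2.2.1, hy.2.2.1]) (by rw [hy'.2.2.2, hy.2.2.2]))).1 h1
  have hJne : J.Nonempty := by
    obtain ⟨x, hx, hRx⟩ := hne
    obtain ⟨i, y, hy, rfl⟩ := exists_ph hx
    exact ⟨i, (hRi i y hy).1 hRx⟩
  -- the numbers
  have hcount : ∀ (X : ℝ) (P : 𝓞 K → Prop),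
      Nat.card {x : 𝓞 K // CF x ∧ R x ∧ (Nz x : ℝ) ≤ X ∧ P x} =
        ∑ i ∈ J, Nat.card {y : 𝓞 K // Cy i y ∧ (Nz y : ℝ) ≤ Y i X ∧ P (ph i y)} := by
    intro X P
    have e : Nat.card {x : 𝓞 K // CF x ∧ R x ∧ (Nz x : ℝ) ≤ X ∧ P x} =
        Nat.card {x : 𝓞 K // CF x ∧ (Nz x : ℝ) ≤ X ∧ (R x ∧ P x)} :=
      Nat.card_congr (Equiv.subtypeEquivRight fun x => by tauto)
    rw [e, card_all X (fun x => R x ∧ P x)]
    rw [← sum_subset (subset_univ J) (f := fun i : Idx =>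
      Nat.card {y : 𝓞 K // Cy i y ∧ (Nz y : ℝ) ≤ Y i X ∧ (R (ph i y) ∧ P (ph i y))})]
    · refine sum_congr rfl fun i hi => Nat.card_congr (Equiv.subtypeEquivRight fun x => ?_)
      constructor
      · rintro ⟨a, b, -, d⟩
        exact ⟨a, b, d⟩
      · rintro ⟨a, b, d⟩
        exact ⟨a, b, (hRi i x a).2 hi, d⟩
    · intro i _ hi
      have : IsEmpty {y : 𝓞 K // Cy i y ∧ (Nz y : ℝ) ≤ Y i X ∧ (R (ph i y) ∧ P (ph i y))} :=
        ⟨fun x => hi ((hRi i x.1 x.2.1).1 x.2.2.2.1)⟩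
      exact Nat.card_of_isEmpty
  have hcount' : ∀ (X : ℝ),
      Nat.card {x : 𝓞 K // CF x ∧ R x ∧ (Nz x : ℝ) ≤ X} =
        ∑ i ∈ J, Nat.card {y : 𝓞 K // Cy i y ∧ (Nz y : ℝ) ≤ Y i X} := by
    intro X
    have := hcount X (fun _ => True)
    simpa only [and_true] using this
  -- the single families
  have hi : ∀ i : Idx, ∀ᶠ X : ℝ in Filter.atTop, i ∈ J →
      0 < Nat.card {y : 𝓞 K // Cy i y ∧ (Nz y : ℝ) ≤ Y i X} ∧
      κ' * (Nat.card {y : 𝓞 K // Cy i y ∧ (Nz y : ℝ) ≤ Y i X} : ℝ) ≤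
        (Nat.card {y : 𝓞 K // Cy i y ∧ (Nz y : ℝ) ≤ Y i X ∧ Pr (ph i y)} : ℝ) := by
    intro i
    by_cases hiJ : i ∈ J
    · have h1 := (tendsto_Y i).eventually (family i κ κ' hκ0 hκ (Good i)
        (h i (mem_filter.1 hiJ).2) Pr (fun S T hST h2 h3 h4 => by
          refine hPr i S T hST h2 h3 ?_ h4
          refine (hRi i _ ⟨?_, ?_, h2, h3⟩).2 hiJ
          · exact prm3.pp_cf hST
          · exact ((Fc_pp i S T).2 ⟨h2, h3⟩).1))
      filter_upwards [h1] with X hX _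
      exact hX
    · exact Filter.Eventually.of_forall fun X h1 => absurd h1 hiJ
  have hall := Filter.eventually_all.2 hi
  filter_upwards [hall] with X hX
  simp only [abs_norm_le]
  rw [hcount X Pr, hcount' X]
  push_cast
  have hpos : (0 : ℝ) < ∑ i ∈ J, (Nat.card {y : 𝓞 K // Cy i y ∧ (Nz y : ℝ) ≤ Y i X} : ℝ) :=
    sum_pos (fun i hiJ => by exact_mod_cast (hX i hiJ).1) hJne
  rw [le_div_iff₀ hpos, mul_sum]
  exact sum_le_sum fun i hiJ => (hX i hiJ).2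

end

end Pool.Agent.Lib.MP_1a91b9_ntK2
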